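import Pool.Agent.FSG.Closed

/-!
# MP_c62dfa_co: Q1 together with Gal's inequality, dimension by dimension, is the existence of one edge

The definitions `Cx, FlagSphere, gamma2, Octa, link, contract, Seq` are in `Pool.Agent.FSG.Defs` and
`Cond2` (condition (2) of the problem) is in `Pool.Agent.FSG.Main`.
-/

set_option autoImplicit false

namespace Pool.Agent.Results.MP_c62dfa_co.OneEdge

open Pool.Agent.FSG

/-- Q1 in dimension `d` together with the inequality `γ₂ ≥ 0`. -/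
def GalAndQ1 (d : ℕ) : Prop :=
  ∀ (n : ℕ) (Δ : Cx n), FlagSphere d Δ → 0 ≤ gamma2 d Δ ∧ (gamma2 d Δ = 0 ↔ Cond2 d Δ)

/-- Every flag `(d-1)`-sphere with `γ₂ ≤ 0`, other than the cross-polytope, has an edge whose
contraction is a flag `(d-1)`-sphere. -/
def HasEdge (d : ℕ) : Prop :=
  ∀ (n : ℕ) (Δ : Cx n), FlagSphere d Δ → gamma2 d Δ ≤ 0 → ¬ Octa d Δ →
    ∃ u v : Fin n, u ≠ v ∧ ({u, v} : Finset (Fin n)) ∈ Δ ∧ FlagSphere d (contract u v Δ)

/-- **Main theorem.** -/
theorem result (d : ℕ) (hd : 2 ≤ d) : GalAndQ1 d ↔ HasEdge d := local_iff d hd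

end Pool.Agent.Results.MP_c62dfa_co.OneEdge
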