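import Pool.Agent.FSG.Closed

/-!
# MP_c62dfa_co: flag spheres with `γ₂ = 0` and edge contractions through flag complexes

The definitions `Cx, IsCx, IsFlag, real, FlagSphere, link, f0, f1, gamma2, Octa, contract, subdiv,
Seq` are in `Pool.Agent.FSG.Defs`, `Red` and `Cond2` are in `Pool.Agent.FSG.Main`.
-/

set_option autoImplicit false

namespace Pool.Agent.Results.MP_c62dfa_co.ReducibleSpheres

open Pool.Agent.FSG

/-- The question Q1, word for word the frozen statement `S11341`. -/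
def Q1 : Prop :=
  ∀ (n d : ℕ), 4 ≤ d → ∀ Δ : Finset (Finset (Fin n)),
    ((∅ ∈ Δ ∧ ∀ F ∈ Δ, ∀ G : Finset (Fin n), G ⊆ F → G ∈ Δ) ∧
     (∀ F : Finset (Fin n), (∀ a ∈ F, ∀ b ∈ F, ({a, b} : Finset (Fin n)) ∈ Δ) → F ∈ Δ) ∧
     Nonempty (↥{x : Fin n → ℝ | (∀ i, 0 ≤ x i) ∧ ∑ i, x i = 1 ∧ ∃ F ∈ Δ, ∀ i, i ∉ F → x i = 0}
        ≃ₜ ↥(Metric.sphere (0 : EuclideanSpace ℝ (Fin d)) 1))) →
    ((((Δ.filter (fun F => F.card = 2)).card : ℤ)
        - (2 * (d : ℤ) - 3) * ((Δ.filter (fun F => F.card = 1)).card : ℤ)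
        + 2 * (d : ℤ) * ((d : ℤ) - 2) = 0) ↔
     ∃ k : ℕ, ∃ L : Fin (k + 1) → Finset (Finset (Fin n)), L 0 = Δ ∧
       (∀ j : Fin (k + 1),
         (∅ ∈ L j ∧ ∀ F ∈ L j, ∀ G : Finset (Fin n), G ⊆ F → G ∈ L j) ∧
         (∀ F : Finset (Fin n), (∀ a ∈ F, ∀ b ∈ F, ({a, b} : Finset (Fin n)) ∈ L j) → F ∈ L j) ∧
         Nonempty (↥{x : Fin n → ℝ | (∀ i, 0 ≤ x i) ∧ ∑ i, x i = 1 ∧ ∃ F ∈ L j, ∀ i, i ∉ F → x i = 0}
            ≃ₜ ↥(Metric.sphere (0 : EuclideanSpace ℝ (Fin d)) 1))) ∧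
       (∀ j : Fin k, ∃ u v : Fin n, u ≠ v ∧ ({u, v} : Finset (Fin n)) ∈ L j.castSucc ∧
          (∃ p : Fin (d - 2) × Bool → Fin n, Function.Injective p ∧
            ∀ F : Finset (Fin n),
              (F ∈ L j.castSucc ∧ Disjoint F ({u, v} : Finset (Fin n)) ∧
                 F ∪ ({u, v} : Finset (Fin n)) ∈ L j.castSucc) ↔
              ∃ G : Finset (Fin (d - 2) × Bool),
                (∀ i : Fin (d - 2), ¬ ((i, true) ∈ G ∧ (i, false) ∈ G)) ∧ F = G.image p) ∧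
          L j.succ = (L j.castSucc).image (fun F => if v ∈ F then insert u (F.erase v) else F)) ∧
       ∃ p : Fin d × Bool → Fin n, Function.Injective p ∧
         ∀ F : Finset (Fin n), F ∈ L (Fin.last k) ↔
           ∃ G : Finset (Fin d × Bool),
             (∀ i : Fin d, ¬ ((i, true) ∈ G ∧ (i, false) ∈ G)) ∧ F = G.image p)

theorem mem_link_iff {n : ℕ} (Δ : Cx n) (e F : Finset (Fin n)) :
    F ∈ link Δ e ↔ (F ∈ Δ ∧ Disjoint F e ∧ F ∪ e ∈ Δ) := by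
  unfold link
  rw [Finset.mem_filter]

theorem q1_iff : Q1 ↔ ∀ (n d : ℕ), 4 ≤ d → ∀ Δ : Cx n, FlagSphere d Δ →
    (gamma2 d Δ = 0 ↔ Cond2 d Δ) := by
  unfold Q1 Cond2 Pool.Agent.FSG.Seq Octa
  simp only [mem_link_iff]
  exact Iff.rfl

/-- **Main theorem.** -/
theorem result :
    -- (1) every sequence of contractions through flag complexes to the cross-polytope
    (∀ (n d k : ℕ) (L : Fin (k + 1) → Cx n) (u v : Fin k → Fin n), 2 ≤ d →
      FlagSphere d (L 0) → (∀ j : Fin (k + 1), IsCx (L j) ∧ IsFlag (L j)) →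
      (∀ j : Fin k, u j ≠ v j ∧ ({u j, v j} : Finset (Fin n)) ∈ L j.castSucc ∧
        L j.succ = contract (u j) (v j) (L j.castSucc)) →
      Octa d (L (Fin.last k)) →
      0 ≤ gamma2 d (L 0) ∧
        (gamma2 d (L 0) = 0 ↔ ∀ j : Fin k, Octa (d - 2) (link (L j.castSucc) {u j, v j}))) ∧
    -- (2) so the link condition in (2) of the problem is automatic
    (∀ (n d : ℕ) (Δ : Cx n), 2 ≤ d → (Cond2 d Δ ↔ gamma2 d Δ = 0 ∧ Red d Δ)) ∧
    -- (3) Q1 is the reducibility of the flag spheres with `γ₂ = 0`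
    (Q1 ↔ ∀ (n d : ℕ) (Δ : Cx n), 4 ≤ d → FlagSphere d Δ → gamma2 d Δ = 0 → Red d Δ) ∧
    -- (4) the reducible spheres contain the cross-polytopes and are closed under subdivisions
    (∀ (n d : ℕ) (Δ : Cx n), 1 ≤ d → Octa d Δ → Red d Δ) ∧
    (∀ (n d : ℕ) (Δ : Cx n) (u v w : Fin n), u ≠ v → ({u, v} : Finset (Fin n)) ∈ Δ →
      ({w} : Finset (Fin n)) ∉ Δ → Red d Δ → Red d (subdiv u v w Δ)) := by
  refine ⟨fun n d k L u v hd h0 hfl hst hl => all_sequences hd L u v h0 hfl hst hl,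
    fun n d Δ hd => main_iff hd, ?_, fun n d Δ hd h => red_octa hd h,
    fun n d Δ u v w huv he hw hr => red_subdiv (seq_head hr) hr huv he hw⟩
  rw [q1_iff]
  constructor
  · intro h n d Δ hd hS h0
    exact red_of_cond2 ((h n d hd Δ hS).1 h0)
  · intro h n d hd Δ hS
    exact ⟨fun h0 => (main_iff (by omega)).2 ⟨h0, h n d Δ hd hS h0⟩,
      fun h2 => gamma2_of_cond2 (by omega) h2⟩

end Pool.Agent.Results.MP_c62dfa_co.ReducibleSpheres
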